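import Pool.Agent.Helper45.L.Defs
import Pool.Agent.SC.Levels

/-!
# Project L, block K3: the agreement lemma
-/

set_option autoImplicit false

namespace Pool.Agent.L

open VC IntermediateField Pool.Agent.SC

/-- an element of `E K0` is fixed by all automorphisms which fix `K0` and finitely many constants -/
private theorem fix_of_const17 {K0 E U : Type} [Field K0] [Field E] [Field U] [Algebra E U] [Algebra K0 U] (y : U)
    (hy : y ∈ L0 E K0 (U := U)) : ∃ C : Finset E, ∀ T : U ≃+* U,
      (∀ x : K0, T (algebraMap K0 U x) = algebraMap K0 U x) → (∀ e ∈ C, T (algebraMap E U e) = algebraMap E U e) → T y = y := by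
  classical
  unfold L0 at hy
  induction hy using IntermediateField.adjoin_induction with
  | mem y hy =>
    obtain ⟨x, rfl⟩ := hy
    exact ⟨∅, fun T h1 _ => h1 x⟩
  | algebraMap e => exact ⟨{e}, fun T _ h2 => h2 e (Finset.mem_singleton_self e)⟩
  | add a b _ _ ha hb =>
    obtain ⟨C1, h1⟩ := ha
    obtain ⟨C2, h2⟩ := hb
    refine ⟨C1 ∪ C2, fun T hT hC => ?_⟩
    rw [map_add, h1 T hT fun e he => hC e (Finset.mem_union_left _ he),
      h2 T hT fun e he => hC e (Finset.mem_union_right _ he)]
  | inv a _ ha =>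
    obtain ⟨C1, h1⟩ := ha
    exact ⟨C1, fun T hT hC => by rw [map_inv₀, h1 T hT hC]⟩
  | mul a b _ _ ha hb =>
    obtain ⟨C1, h1⟩ := ha
    obtain ⟨C2, h2⟩ := hb
    refine ⟨C1 ∪ C2, fun T hT hC => ?_⟩
    rw [map_mul, h1 T hT fun e he => hC e (Finset.mem_union_left _ he),
      h2 T hT fun e he => hC e (Finset.mem_union_right _ he)]

/-- two ring homomorphisms which agree on `E`, on `K0` and on `Z` agree on `E K0 (Z)` -/
private theorem eq_on_adjoin17 {K0 E U : Type} [Field K0] [Field E] [Field U] [Algebra E U] [Algebra K0 U]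
    {N : IntermediateField E U} {Z : Set U}
    (hN : N = IntermediateField.adjoin E (Set.range (algebraMap K0 U) ∪ Z)) (b b' : N →ₐ[E] U)
    (h1 : ∀ x : N, (x : U) ∈ L0 E K0 (U := U) → b x = b' x) (h2 : ∀ x : N, (x : U) ∈ Z → b x = b' x) : b = b' := by
  subst hN
  ext ⟨x, hx⟩
  induction hx using IntermediateField.adjoin_induction with
  | mem y hy =>
    rcases hy with ⟨c, rfl⟩ | hy
    · exact h1 _ (IntermediateField.subset_adjoin _ _ ⟨c, rfl⟩)
    · exact h2 _ hy
  | algebraMap e => exact (b.commutes e).trans (b'.commutes e).symm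
  | add a c ha hc h3 h4 =>
    have e1 : (⟨a + c, add_mem ha hc⟩ : IntermediateField.adjoin E (Set.range (algebraMap K0 U) ∪ Z)) = ⟨a, ha⟩ + ⟨c, hc⟩ := rfl
    rw [e1, map_add, map_add, h3, h4]
  | inv a ha h3 =>
    have e1 : (⟨a⁻¹, inv_mem ha⟩ : IntermediateField.adjoin E (Set.range (algebraMap K0 U) ∪ Z)) = (⟨a, ha⟩)⁻¹ := rfl
    rw [e1, map_inv₀, map_inv₀, h3]
  | mul a c ha hc h3 h4 =>
    have e1 : (⟨a * c, mul_mem ha hc⟩ : IntermediateField.adjoin E (Set.range (algebraMap K0 U) ∪ Z)) = ⟨a, ha⟩ * ⟨c, hc⟩ := rfl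
    rw [e1, map_mul, map_mul, h3, h4]

theorem stmtK3 : StmtK3 := by
  intro k K0 E U _ _ _ _ _ _ _ _ _ _ _ _ h r G Z
  classical
  have hcU : CharZero U := charZero_of_injective_algebraMap (algebraMap k U).injective
  have hcK : CharZero K0 := charZero_of_injective_algebraMap (algebraMap k K0).injective
  have hn : Normal K0 U := G.normal
  have hint : ∀ z : U, IsIntegral K0 z := fun z => hn.isIntegral z
  -- the conjugates
  set Z' : Finset U := (insert r Z).biUnion fun z => ((minpoly K0 z).aroots U).toFinset with hZ'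
  have hmem : ∀ x, x ∈ Z' ↔ ∃ z ∈ insert r Z, Polynomial.aeval x (minpoly K0 z) = 0 := by
    intro x
    rw [hZ', Finset.mem_biUnion]
    refine exists_congr fun z => and_congr_right fun _ => ?_
    rw [Multiset.mem_toFinset, Polynomial.mem_aroots]
    exact ⟨fun h => h.2, fun h => ⟨minpoly.ne_zero (hint z), h⟩⟩
  have hself : ∀ z ∈ insert r Z, z ∈ Z' := fun z hz => (hmem z).2 ⟨z, hz, minpoly.aeval _ _⟩
  have hstab : ∀ T : U →+* U, (∀ x : K0, T (algebraMap K0 U x) = algebraMap K0 U x) → ∀ z ∈ Z', T z ∈ Z' := by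
    intro T hT z hz
    obtain ⟨z0, hz0, h1⟩ := (hmem z).1 hz
    refine (hmem _).2 ⟨z0, hz0, ?_⟩
    let T' : U →ₐ[K0] U := { T with commutes' := hT }
    have h2 : Polynomial.aeval (T' z) (minpoly K0 z0) = T' (Polynomial.aeval z (minpoly K0 z0)) :=
      Polynomial.aeval_algHom_apply T' z _
    rw [h1, map_zero] at h2
    exact h2
  -- the field of constants and `K0`
  set L : IntermediateField E U := L0 E K0 (U := U) with hL
  have hKL : ∀ x : K0, algebraMap K0 U x ∈ L := fun x => IntermediateField.subset_adjoin _ _ ⟨x, rfl⟩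
  let aKL : Algebra K0 L := (RingHom.codRestrict (algebraMap K0 U) L hKL).toAlgebra
  have sKL : IsScalarTower K0 L U := IsScalarTower.of_algebraMap_eq fun x => rfl
  have hnL : Normal L U := Normal.tower_top_of_normal K0 L U
  have hintL : ∀ z : U, IsIntegral L z := fun z => hnL.isIntegral z
  -- the level
  set N1 : IntermediateField L U := IntermediateField.adjoin L (Z' : Set U) with hN1
  have hfd : FiniteDimensional L N1 := by
    have := Z'.finite_toSet.to_subtype
    exact IntermediateField.finiteDimensional_adjoin fun x _ => hintL x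
  set N : IntermediateField E U := IntermediateField.adjoin E (Set.range (algebraMap K0 U) ∪ Z') with hN
  have hNN1 : N1.restrictScalars E = N := by
    rw [hN1, hL, hN]
    unfold L0
    exact IntermediateField.adjoin_adjoin_left _ _ _
  have hff : IsFunctionField E N := by
    rw [← hNN1]
    exact isFunctionField_restrictScalars G.ff N1
  have hKN : ∀ x : K0, algebraMap K0 U x ∈ N := fun x => IntermediateField.subset_adjoin _ _ (Or.inl ⟨x, rfl⟩)
  have hZN : ∀ z ∈ Z', z ∈ N := fun z hz => IntermediateField.subset_adjoin _ _ (Or.inr hz)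
  -- a primitive element
  set F : IntermediateField K0 U := IntermediateField.adjoin K0 (Z' : Set U) with hF
  have hfdF : FiniteDimensional K0 F := by
    have := Z'.finite_toSet.to_subtype
    exact IntermediateField.finiteDimensional_adjoin fun x _ => hint x
  obtain ⟨θ, hθ⟩ := Field.exists_primitive_element K0 F
  have hagree : ∀ T T' : U →+* U, (∀ x : K0, T (algebraMap K0 U x) = T' (algebraMap K0 U x)) →
      T (θ : U) = T' (θ : U) → ∀ z ∈ Z', T z = T' z := by
    intro T T' h1 h2 z hz
    have hzF : z ∈ F := IntermediateField.subset_adjoin _ _ hz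
    have h3 : (⟨z, hzF⟩ : F) ∈ (K0⟮θ⟯ : IntermediateField K0 F) := by
      rw [hθ]
      exact IntermediateField.mem_top
    have h4 : ∀ w : F, w ∈ (K0⟮θ⟯ : IntermediateField K0 F) → T (w : U) = T' (w : U) := by
      intro w hw
      induction hw using IntermediateField.adjoin_induction with
      | mem y hy =>
        rw [Set.mem_singleton_iff.1 hy]
        exact h2
      | algebraMap c => exact h1 c
      | add a c _ _ h5 h6 =>
        have e1 : ((a + c : F) : U) = a + c := rfl
        rw [e1, map_add, map_add, h5, h6]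
      | inv a _ h5 =>
        have e1 : ((a⁻¹ : F) : U) = (a : U)⁻¹ := rfl
        rw [e1, map_inv₀, map_inv₀, h5]
      | mul a c _ _ h5 h6 =>
        have e1 : ((a * c : F) : U) = a * c := rfl
        rw [e1, map_mul, map_mul, h5, h6]
    exact h4 ⟨z, hzF⟩ h3
  -- the constants
  have hC := fun i : ℕ => fix_of_const17 (K0 := K0) (E := E) (((minpoly L (θ : U)).coeff i : L) : U)
    ((minpoly L (θ : U)).coeff i).2
  choose Cf hCf using hC
  set C : Finset E := (Finset.range ((minpoly L (θ : U)).natDegree + 1)).biUnion Cf with hCdef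
  refine ⟨Z', C, N, fun z hz => hself z (Finset.mem_insert_of_mem hz), hself r (Finset.mem_insert_self _ _), rfl, hff, ?_, ?_, ?_⟩
  · -- finiteness
    have hroot : ∀ b : {b : N ≃ₐ[E] N // ∀ x : N, (x : U) ∈ L → b x = x}, ∀ z : Z',
        ((b.1 ⟨z.1, hZN z.1 z.2⟩ : N) : U) ∈ Z' := by
      rintro ⟨b, hb⟩ ⟨z, hz⟩
      obtain ⟨z0, hz0, h1⟩ := (hmem z).1 hz
      refine (hmem _).2 ⟨z0, hz0, ?_⟩
      let aKN : Algebra K0 N := (RingHom.codRestrict (algebraMap K0 U) N hKN).toAlgebra
      let i1 : N →ₐ[K0] U := { N.val with commutes' := fun x => rfl }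
      let b1 : N →ₐ[K0] N := { (b : N →+* N) with commutes' := fun x => hb ⟨_, hKN x⟩ (hKL x) }
      have h2 : Polynomial.aeval ((i1.comp b1) ⟨z, hZN z hz⟩) (minpoly K0 z0) =
          (i1.comp b1) (Polynomial.aeval (⟨z, hZN z hz⟩ : N) (minpoly K0 z0)) :=
        Polynomial.aeval_algHom_apply _ _ _
      have h3 : Polynomial.aeval (i1 ⟨z, hZN z hz⟩) (minpoly K0 z0) =
          i1 (Polynomial.aeval (⟨z, hZN z hz⟩ : N) (minpoly K0 z0)) := Polynomial.aeval_algHom_apply _ _ _
      have h4 : Polynomial.aeval (⟨z, hZN z hz⟩ : N) (minpoly K0 z0) = 0 := by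
        refine RingHom.injective (i1 : N →+* U) ?_
        have h5 : i1 (Polynomial.aeval (⟨z, hZN z hz⟩ : N) (minpoly K0 z0)) = 0 := by
          rw [← h3]
          exact h1
        rw [map_zero]
        exact h5
      rw [h4, map_zero] at h2
      exact h2
    refine Finite.of_injective (β := Z' → Z') (fun b z => ⟨_, hroot b z⟩) ?_
    rintro ⟨b, hb⟩ ⟨b', hb'⟩ hbb
    apply Subtype.ext
    have h5 : N.val.comp (b : N →ₐ[E] N) = N.val.comp (b' : N →ₐ[E] N) := by
      refine eq_on_adjoin17 (K0 := K0) hN _ _ (fun x hx => ?_) fun x hx => ?_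
      · show ((b x : N) : U) = ((b' x : N) : U)
        rw [hb x hx, hb' x hx]
      · have h6 := congrFun hbb ⟨(x : U), hx⟩
        have h7 : ((b x : N) : U) = ((b' x : N) : U) := congrArg (fun q : Z' => (q : U)) h6
        exact h7
    ext x
    exact congrArg (fun φ : N →ₐ[E] U => φ x) h5
  · intro T hT
    exact hstab (T : U →+* U) hT
  · intro T hT _ hCT
    -- `T θ` is a conjugate of `θ` over `L`
    have hco : ∀ i ∈ Finset.range ((minpoly L (θ : U)).natDegree + 1),
        T (((minpoly L (θ : U)).coeff i : L) : U) = (((minpoly L (θ : U)).coeff i : L) : U) := by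
      intro i hi
      exact hCf i T hT fun e he => hCT e (Finset.mem_biUnion.2 ⟨i, hi, he⟩)
    have hev : Polynomial.aeval (T (θ : U)) (minpoly L (θ : U)) = 0 := by
      have h1 : Polynomial.aeval (T (θ : U)) (minpoly L (θ : U)) = T (Polynomial.aeval (θ : U) (minpoly L (θ : U))) := by
        rw [Polynomial.aeval_eq_sum_range, Polynomial.aeval_eq_sum_range, map_sum]
        refine Finset.sum_congr rfl fun i hi => ?_
        rw [Algebra.smul_def, Algebra.smul_def, map_mul, map_pow]
        congr 1
        exact (hco i hi).symm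
      rw [h1, minpoly.aeval, map_zero]
    obtain ⟨σ, hσ⟩ := minpoly.exists_algEquiv_of_root' (hintL (θ : U)).isAlgebraic hev
    have hσL : ∀ x : U, x ∈ L → σ x = x := fun x hx => σ.commutes ⟨x, hx⟩
    have hσK : ∀ x : K0, σ (algebraMap K0 U x) = algebraMap K0 U x := fun x => hσL _ (hKL x)
    have hσE : ∀ e : E, σ (algebraMap E U e) = algebraMap E U e := fun e => hσL _ (L.algebraMap_mem e)
    let σE : U ≃ₐ[E] U := AlgEquiv.ofRingEquiv (f := σ.toRingEquiv) hσE
    have hle : ∀ τ : U ≃ₐ[E] U, (∀ x : K0, τ (algebraMap K0 U x) = algebraMap K0 U x) → N.map τ.toAlgHom ≤ N := by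
      intro τ hτ
      rw [hN, IntermediateField.adjoin_map, IntermediateField.adjoin_le_iff]
      rintro _ ⟨y, ⟨c, rfl⟩ | hy, rfl⟩
      · have h1 : τ.toAlgHom (algebraMap K0 U c) = algebraMap K0 U c := hτ c
        rw [h1]
        exact IntermediateField.subset_adjoin _ _ (Or.inl ⟨c, rfl⟩)
      · exact IntermediateField.subset_adjoin _ _ (Or.inr (hstab (τ : U →+* U) hτ y hy))
    have hmap : N.map σE.toAlgHom = N := by
      refine le_antisymm (hle σE hσK) fun x hx => ?_
      have h1 : σE.symm x ∈ N := by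
        refine hle σE.symm (fun c => ?_) ⟨x, hx, rfl⟩
        rw [AlgEquiv.symm_apply_eq]
        exact (hσK c).symm
      exact ⟨σE.symm x, h1, σE.apply_symm_apply x⟩
    refine ⟨(IntermediateField.intermediateFieldMap σE N).trans (IntermediateField.equivOfEq hmap), ?_, ?_⟩
    · intro x hx
      apply Subtype.ext
      exact hσL x hx
    · intro z hz
      have h2 := hagree (T : U →+* U) (σ : U →+* U) (fun x => (hT x).trans (hσK x).symm) hσ.symm z hz
      exact h2

end Pool.Agent.L
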